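import Pool.Agent.Helper20.EQ.St4

/-!
# Project EQ (MP_cb927e_an): module NVD (numbers)
-/

set_option autoImplicit false

open MeasureTheory Set Filter Topology
open scoped ENNReal RealInnerProductSpace

namespace Pool.Agent.Helper60.EQ

open Pool.Agent.Helper20.RG Pool.Agent.Helper20.EQ
open Pool.Agent.Helper68.LM (Pl BB Bd Av HL ft fm DQ)

/-- the parameter of `nv` in terms of `W` -/
theorem w_bd (v b : ℕ) (p : ℝ) (hv : 1 ≤ v) (hp : 1 ≤ p) :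
    ((2 : ℝ) ^ (b + 1) * v) ^ (-(1 / p)) ≤
      512 * v * ((2 : ℝ) ^ b * (1024 * (v : ℝ) ^ 2)) ^ (-(1 / p)) := by
  have hv' : (1 : ℝ) ≤ v := by exact_mod_cast hv
  have hv0 : (0 : ℝ) < v := by linarith
  have e1 : (2 : ℝ) ^ (b + 1) * v = (2 : ℝ) ^ b * (1024 * (v : ℝ) ^ 2) / (512 * v) := by
    rw [pow_succ]
    field_simp
    ring
  rw [e1, Real.div_rpow (by positivity) (by positivity), Real.rpow_neg (by positivity : (0:ℝ) ≤ 512 * v),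
    div_inv_eq_mul, mul_comm]
  apply mul_le_mul_of_nonneg_right _ (by positivity)
  have h1 : (512 * (v : ℝ)) ^ (1 / p) ≤ (512 * (v : ℝ)) ^ (1 : ℝ) := by
    apply Real.rpow_le_rpow_of_exponent_le (by linarith)
    rw [div_le_one (by linarith)]
    exact hp
  rwa [Real.rpow_one] at h1

/-- case 1 -/
theorem nv_one (u v b : ℕ) (A p : ℝ) (hv : 1 ≤ v) (hp : 1 ≤ p) (hA : 0 ≤ A)
    (hW : ((2 : ℝ) ^ u) ^ p ≤ (2 : ℝ) ^ b * (1024 * (v : ℝ) ^ 2)) :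
    nv u v b A p ≤ (1 + 512 * A) * v := by
  have hv' : (1 : ℝ) ≤ v := by exact_mod_cast hv
  have hN : (0 : ℝ) < (2 : ℝ) ^ u := by positivity
  have h1 := w_bd v b p hv hp
  have h2 : ((2 : ℝ) ^ b * (1024 * (v : ℝ) ^ 2)) ^ (-(1 / p)) ≤ ((2 : ℝ) ^ u)⁻¹ := by
    have h3 := Real.rpow_le_rpow_of_nonpos (by positivity : (0 : ℝ) < ((2 : ℝ) ^ u) ^ p) hW
      (by
        have : 0 ≤ 1 / p := by positivity
        linarith : -(1 / p) ≤ 0)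
    refine h3.trans (le_of_eq ?_)
    rw [← Real.rpow_mul hN.le, ← Real.rpow_neg_one]
    congr 1
    have : p ≠ 0 := by linarith
    field_simp
  unfold nv
  have h4 : (2 : ℝ) ^ u * (A * ((2 : ℝ) ^ (b + 1) * v) ^ (-(1 / p))) ≤ 512 * A * v := by
    have h5 : ((2 : ℝ) ^ (b + 1) * v) ^ (-(1 / p)) ≤ 512 * v * ((2 : ℝ) ^ u)⁻¹ :=
      h1.trans (mul_le_mul_of_nonneg_left h2 (by positivity))
    calc (2 : ℝ) ^ u * (A * ((2 : ℝ) ^ (b + 1) * v) ^ (-(1 / p)))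
        ≤ (2 : ℝ) ^ u * (A * (512 * v * ((2 : ℝ) ^ u)⁻¹)) := by gcongr
      _ = 512 * A * v := by field_simp
  nlinarith

/-- case 2 -/
theorem nv_two (u v b : ℕ) (A p : ℝ) (hv : 1 ≤ v) (hp : 2 < p) (hA : 0 ≤ A)
    (hW : (2 : ℝ) ^ b * (1024 * (v : ℝ) ^ 2) ≤ ((2 : ℝ) ^ u) ^ p) :
    ∃ T : ℕ, 1 ≤ T ∧ nv u v b A p * mu u A p ((2 : ℝ) ^ b * (1024 * (v : ℝ) ^ 2)) T ≤
      (1 + 512 * A) * (3 + A) * v * ((2 : ℝ) ^ u) ^ p := by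
  have hv' : (1 : ℝ) ≤ v := by exact_mod_cast hv
  obtain ⟨N, hN⟩ : ∃ N, N = (2 : ℝ) ^ u := ⟨_, rfl⟩
  obtain ⟨W, hWd⟩ : ∃ W, W = (2 : ℝ) ^ b * (1024 * (v : ℝ) ^ 2) := ⟨_, rfl⟩
  have hN1 : 1 ≤ N := by rw [hN]; exact one_le_pow₀ (by norm_num)
  have hN0 : 0 < N := by linarith
  have hW1 : 1 ≤ W := by
    rw [hWd]
    have h1 : (1 : ℝ) ≤ (2 : ℝ) ^ b := one_le_pow₀ (by norm_num)
    have h2 : (1 : ℝ) ≤ 1024 * (v : ℝ) ^ 2 := by nlinarith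
    exact one_le_mul_of_one_le_of_one_le h1 h2
  have hW0 : 0 < W := by linarith
  have hp0 : 0 < p := by linarith
  have hpn : p ≠ 0 := hp0.ne'
  have hp1 : p + 1 ≠ 0 := by linarith
  have h1 := w_bd v b p hv (by linarith)
  rw [← hWd] at h1 ⊢
  rw [← hN, ← hWd] at hW
  obtain ⟨θ, hθ⟩ : ∃ θ, θ = p / (p + 1) := ⟨_, rfl⟩
  have hθ0 : 0 < θ := by rw [hθ]; positivity
  obtain ⟨S, hS⟩ : ∃ S, S = (W * N) ^ θ := ⟨_, rfl⟩
  have hWN : 1 ≤ W * N := one_le_mul_of_one_le_of_one_le hW1 hN1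
  have hWN0 : 0 < W * N := by positivity
  have hS1 : 1 ≤ S := by rw [hS]; exact Real.one_le_rpow hWN hθ0.le
  have hS0 : 0 < S := by linarith
  have hTS : S ≤ (⌈S⌉₊ : ℝ) := Nat.le_ceil S
  have hTS2 : (⌈S⌉₊ : ℝ) ≤ 2 * S := by
    have := (Nat.ceil_lt_add_one hS0.le).le
    linarith
  refine ⟨⌈S⌉₊, ?_, ?_⟩
  · have : 0 < ⌈S⌉₊ := Nat.ceil_pos.mpr hS0
    omega
  -- the power of T
  have hT1 : (⌈S⌉₊ : ℝ) ^ (-(1 / p)) ≤ S ^ (-(1 / p)) := by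
    apply Real.rpow_le_rpow_of_nonpos hS0 hTS
    have : 0 ≤ 1 / p := by positivity
    linarith
  have hT2 : W * N * S ^ (-(1 / p)) = S := by
    rw [hS, ← Real.rpow_mul hWN0.le]
    nth_rewrite 1 [← Real.rpow_one (W * N)]
    rw [← Real.rpow_add hWN0]
    congr 1
    rw [hθ]
    field_simp
    ring
  have hWS : W ≤ S := by
    have e1 : W = W ^ θ * W ^ (1 - θ) := by
      rw [← Real.rpow_add hW0]
      have : θ + (1 - θ) = 1 := by ring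
      rw [this, Real.rpow_one]
    have e2 : W ^ (1 - θ) ≤ N ^ θ := by
      have h3 : 1 - θ = 1 / (p + 1) := by
        rw [hθ]; field_simp; ring
      have h4 : N ^ θ = (N ^ p) ^ (1 / (p + 1)) := by
        rw [← Real.rpow_mul hN0.le, hθ]
        congr 1
        field_simp
      rw [h3, h4]
      exact Real.rpow_le_rpow hW0.le hW (by positivity)
    calc W = W ^ θ * W ^ (1 - θ) := e1
      _ ≤ W ^ θ * N ^ θ := by gcongr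
      _ = S := by rw [hS, Real.mul_rpow hW0.le hN0.le]
  have hmu : mu u A p W ⌈S⌉₊ ≤ (3 + A) * S := by
    unfold mu
    rw [← hN]
    have h3 : W * N * (⌈S⌉₊ : ℝ) ^ (-(1 / p)) ≤ S := by
      calc W * N * (⌈S⌉₊ : ℝ) ^ (-(1 / p)) ≤ W * N * S ^ (-(1 / p)) := by gcongr
        _ = S := hT2
    have h4 : A * (W * N * (⌈S⌉₊ : ℝ) ^ (-(1 / p))) ≤ A * S := mul_le_mul_of_nonneg_left h3 hA
    have h5 : (⌈S⌉₊ : ℝ) + W * (1 + N * (A * (⌈S⌉₊ : ℝ) ^ (-(1 / p)))) =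
        (⌈S⌉₊ : ℝ) + W + A * (W * N * (⌈S⌉₊ : ℝ) ^ (-(1 / p))) := by ring
    rw [h5]
    linarith
  have hnv : nv u v b A p ≤ (1 + 512 * A) * v * (N * W ^ (-(1 / p))) := by
    unfold nv
    rw [← hN]
    have h3 : 1 ≤ N * W ^ (-(1 / p)) := by
      have h4 : N ^ (-1 : ℝ) ≤ W ^ (-(1 / p)) := by
        have h5 := Real.rpow_le_rpow_of_nonpos hW0 hW
          (by
            have : 0 ≤ 1 / p := by positivity
            linarith : -(1 / p) ≤ 0)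
        rw [← Real.rpow_mul hN0.le] at h5
        have h6 : p * -(1 / p) = -1 := by field_simp
        rwa [h6] at h5
      rw [Real.rpow_neg_one] at h4
      calc 1 = N * N⁻¹ := by field_simp
        _ ≤ N * W ^ (-(1 / p)) := by gcongr
    have h7 : N * (A * ((2 : ℝ) ^ (b + 1) * v) ^ (-(1 / p))) ≤
        512 * A * v * (N * W ^ (-(1 / p))) := by
      calc N * (A * ((2 : ℝ) ^ (b + 1) * v) ^ (-(1 / p)))
          ≤ N * (A * (512 * v * W ^ (-(1 / p)))) := by gcongr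
        _ = _ := by ring
    have h8 : 1 ≤ v * (N * W ^ (-(1 / p))) := one_le_mul_of_one_le_of_one_le hv' h3
    calc 1 + N * (A * ((2 : ℝ) ^ (b + 1) * v) ^ (-(1 / p)))
        ≤ v * (N * W ^ (-(1 / p))) + 512 * A * v * (N * W ^ (-(1 / p))) := add_le_add h8 h7
      _ = _ := by ring
  have hlast : N * W ^ (-(1 / p)) * S ≤ N ^ p := by
    have h3 : S = W ^ θ * N ^ θ := by rw [hS, Real.mul_rpow hW0.le hN0.le]
    have h4 : N * W ^ (-(1 / p)) * S = N ^ (1 + θ) * W ^ (θ - 1 / p) := by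
      rw [h3, Real.rpow_add hN0, Real.rpow_one]
      have h5 : W ^ (θ - 1 / p) = W ^ (-(1 / p)) * W ^ θ := by
        rw [← Real.rpow_add hW0]
        congr 1
        ring
      rw [h5]
      ring
    have h6 : 0 ≤ θ - 1 / p := by
      rw [hθ, sub_nonneg, div_le_div_iff₀ hp0 (by linarith)]
      nlinarith
    have h7 : W ^ (θ - 1 / p) ≤ (N ^ p) ^ (θ - 1 / p) := Real.rpow_le_rpow hW0.le hW h6
    have h8 : N ^ (1 + θ) * (N ^ p) ^ (θ - 1 / p) = N ^ p := by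
      rw [← Real.rpow_mul hN0.le, ← Real.rpow_add hN0]
      congr 1
      rw [hθ]
      field_simp
      ring
    rw [h4, ← h8]
    gcongr
  have hmu0 : 0 ≤ mu u A p W ⌈S⌉₊ := by
    unfold mu
    positivity
  calc nv u v b A p * mu u A p W ⌈S⌉₊
      ≤ ((1 + 512 * A) * v * (N * W ^ (-(1 / p)))) * ((3 + A) * S) := by
        apply mul_le_mul hnv hmu hmu0 (by positivity)
    _ = (1 + 512 * A) * (3 + A) * v * (N * W ^ (-(1 / p)) * S) := by ring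
    _ ≤ (1 + 512 * A) * (3 + A) * v * N ^ p := by gcongr
    _ = _ := by rw [hN]

/-- the final bound -/
theorem fin_bd (p Cf C₂ C₁ : ℝ) (Cρ u v t ρ : ℕ) (η m₁ nvv V : ℝ) (hp : 2 < p) (hp3 : p < 3)
    (hCf : 1 ≤ Cf) (hC₂ : 0 < C₂) (hC₁ : 0 < C₁) (hNu : Nu p Cρ u v t ρ η m₁)
    (h : nvv * V ≤ C₁ * (v : ℝ) ^ 6 * (2 : ℝ) ^ (2 * (ρ : ℝ)) * (2 : ℝ) ^ (p * u)) :
    16 * v * (C₂ * nvv * (64 * (16 * Cf * (4 : ℝ) ^ ((t : ℤ) - u - ρ) / η ^ 2)) / m₁ ^ 3) * V ≤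
      (16 * 64 * 16 * 16 * 1000 * C₂ * Cf * C₁ * ((Cρ : ℝ) + 1) ^ 10) * (2 : ℝ) ^ tg p u t ρ := by
  obtain ⟨hu, hv, hut, htu, hρ, hη, hm⟩ := hNu
  have hu' : (2 : ℝ) ≤ u := by exact_mod_cast hu
  have hv1 : 1 ≤ v := by
    rw [hv]
    nlinarith
  have hv' : (1 : ℝ) ≤ v := by exact_mod_cast hv1
  have h2 : (0 : ℝ) < 2 := by norm_num
  have he1 : e1 p = (3 - p) / 100 := rfl
  have hdl : dl p = (3 - p) / 2000 := rfl
  -- the factor with η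
  have hη2 : (4 : ℝ) ^ ((t : ℤ) - u - ρ) / η ^ 2 = 16 * (2 : ℝ) ^ (2 * ((t : ℝ) - u)) := by
    have e4 : (4 : ℝ) = (2 : ℝ) ^ (2 : ℤ) := by norm_num
    have e16 : (16 : ℝ) = (2 : ℝ) ^ (4 : ℤ) := by norm_num
    have er : (2 : ℝ) ^ (2 * ((t : ℝ) - u)) = (2 : ℝ) ^ (2 * ((t : ℤ) - u)) := by
      rw [← Real.rpow_intCast]
      congr 1
      push_cast
      ring
    rw [er, hη, e4, ← zpow_mul, e16, ← zpow_add₀ h2.ne', ← zpow_natCast ((2 : ℝ) ^ (-((ρ : ℤ) + 2))) 2,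
      ← zpow_mul, ← zpow_sub₀ h2.ne']
    congr 1
    push_cast
    ring
  -- the factor with m₁
  have hm3 : 1 / m₁ ^ 3 ≤ 1000 * (v : ℝ) ^ 3 * (2 : ℝ) ^ (-(3 * ((1 - e1 p) * t))) := by
    have e1' : 1 / m₁ ^ 3 = (2 * (3 * (v : ℝ) + 2)) ^ 3 * (2 : ℝ) ^ (-(3 * ((1 - e1 p) * t))) := by
      have e2 : (2 : ℝ) ^ (-(3 * ((1 - e1 p) * t))) = ((2 : ℝ) ^ ((1 - e1 p) * t))⁻¹ ^ 3 := by
        rw [← Real.rpow_neg h2.le, ← Real.rpow_natCast ((2 : ℝ) ^ (-((1 - e1 p) * (t : ℝ)))) 3,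
          ← Real.rpow_mul h2.le]
        congr 1
        push_cast
        ring
      rw [e2, hm]
      have e3 : (0 : ℝ) < (2 : ℝ) ^ ((1 - e1 p) * t) := by positivity
      field_simp
    rw [e1']
    apply mul_le_mul_of_nonneg_right _ (by positivity)
    have e3 : 2 * (3 * (v : ℝ) + 2) ≤ 10 * v := by linarith
    calc (2 * (3 * (v : ℝ) + 2)) ^ 3 ≤ (10 * (v : ℝ)) ^ 3 := by gcongr
      _ = 1000 * (v : ℝ) ^ 3 := by ring
  have hm0 : 0 < m₁ := by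
    rw [hm]
    positivity
  have hv10 : (v : ℝ) ^ 10 ≤ ((Cρ : ℝ) + 1) ^ 10 * (2 : ℝ) ^ (10 * (dl p * t)) := by
    have e1' : (v : ℝ) = ((Cρ : ℝ) + 1) * u := by
      rw [hv]
      push_cast
      ring
    have e2 : (2 : ℝ) ^ (10 * (dl p * t)) = ((2 : ℝ) ^ (dl p * t)) ^ 10 := by
      rw [← Real.rpow_natCast ((2 : ℝ) ^ (dl p * (t : ℝ))) 10, ← Real.rpow_mul h2.le]
      congr 1
      push_cast
      ring
    rw [e1', e2, mul_pow]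
    gcongr
  have hex : (2 : ℝ) ^ (10 * (dl p * t)) * ((2 : ℝ) ^ (2 * ((t : ℝ) - u)) *
      (2 : ℝ) ^ (-(3 * ((1 - e1 p) * t))) * (2 : ℝ) ^ (2 * (ρ : ℝ)) * (2 : ℝ) ^ (p * u)) ≤
      (2 : ℝ) ^ tg p u t ρ := by
    rw [← Real.rpow_add h2, ← Real.rpow_add h2, ← Real.rpow_add h2, ← Real.rpow_add h2]
    apply Real.rpow_le_rpow_of_exponent_le (by norm_num)
    unfold tg
    have ht0 : (0 : ℝ) ≤ t := by positivity
    have hρ0 : (0 : ℝ) ≤ ρ := by positivity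
    have h5 : 0 ≤ (p - 2) * (ρ : ℝ) := mul_nonneg (by linarith) hρ0
    have h6 : 0 ≤ (3 - p) * (t : ℝ) := mul_nonneg (by linarith) ht0
    rw [he1] at htu ⊢
    rw [hdl]
    nlinarith
  have hE : 16 * v * (C₂ * nvv * (64 * (16 * Cf * (4 : ℝ) ^ ((t : ℤ) - u - ρ) / η ^ 2)) / m₁ ^ 3) * V =
      (16 * 64 * 16 * C₂ * Cf * v) * ((4 : ℝ) ^ ((t : ℤ) - u - ρ) / η ^ 2) * ((1 / m₁ ^ 3) * (nvv * V)) := by
    ring
  rw [hE, hη2]
  have h7 : (1 / m₁ ^ 3) * (nvv * V) ≤ (1000 * (v : ℝ) ^ 3 * (2 : ℝ) ^ (-(3 * ((1 - e1 p) * t)))) *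
      (C₁ * (v : ℝ) ^ 6 * (2 : ℝ) ^ (2 * (ρ : ℝ)) * (2 : ℝ) ^ (p * u)) := by
    calc (1 / m₁ ^ 3) * (nvv * V) ≤ (1 / m₁ ^ 3) *
        (C₁ * (v : ℝ) ^ 6 * (2 : ℝ) ^ (2 * (ρ : ℝ)) * (2 : ℝ) ^ (p * u)) :=
          mul_le_mul_of_nonneg_left h (by positivity)
      _ ≤ _ := mul_le_mul_of_nonneg_right hm3 (by positivity)
  calc (16 * 64 * 16 * C₂ * Cf * v) * (16 * (2 : ℝ) ^ (2 * ((t : ℝ) - u))) * ((1 / m₁ ^ 3) * (nvv * V))
      ≤ (16 * 64 * 16 * C₂ * Cf * v) * (16 * (2 : ℝ) ^ (2 * ((t : ℝ) - u))) *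
        ((1000 * (v : ℝ) ^ 3 * (2 : ℝ) ^ (-(3 * ((1 - e1 p) * t)))) *
          (C₁ * (v : ℝ) ^ 6 * (2 : ℝ) ^ (2 * (ρ : ℝ)) * (2 : ℝ) ^ (p * u))) :=
        mul_le_mul_of_nonneg_left h7 (by positivity)
    _ = (16 * 64 * 16 * 16 * 1000 * C₂ * Cf * C₁) * ((v : ℝ) ^ 10 * ((2 : ℝ) ^ (2 * ((t : ℝ) - u)) *
      (2 : ℝ) ^ (-(3 * ((1 - e1 p) * t))) * (2 : ℝ) ^ (2 * (ρ : ℝ)) * (2 : ℝ) ^ (p * u))) := by ring
    _ ≤ (16 * 64 * 16 * 16 * 1000 * C₂ * Cf * C₁) * ((((Cρ : ℝ) + 1) ^ 10 * (2 : ℝ) ^ (10 * (dl p * t))) *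
      ((2 : ℝ) ^ (2 * ((t : ℝ) - u)) *
      (2 : ℝ) ^ (-(3 * ((1 - e1 p) * t))) * (2 : ℝ) ^ (2 * (ρ : ℝ)) * (2 : ℝ) ^ (p * u))) := by gcongr
    _ = (16 * 64 * 16 * 16 * 1000 * C₂ * Cf * C₁ * ((Cρ : ℝ) + 1) ^ 10) * ((2 : ℝ) ^ (10 * (dl p * t)) *
      ((2 : ℝ) ^ (2 * ((t : ℝ) - u)) *
      (2 : ℝ) ^ (-(3 * ((1 - e1 p) * t))) * (2 : ℝ) ^ (2 * (ρ : ℝ)) * (2 : ℝ) ^ (p * u))) := by ring
    _ ≤ _ := mul_le_mul_of_nonneg_left hex (by positivity)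

theorem hNVD : StNVD := by
  intro Cf A p C₂ Cρ hCf hA hp hp3 hC₂
  obtain ⟨C₁, hC₁⟩ : ∃ C₁, C₁ = 256 * 4096 * 16 * Cf * (Cf + 2) * ((1 + 512 * A) * (3 + A)) := ⟨_, rfl⟩
  have hC₁0 : 0 < C₁ := by rw [hC₁]; positivity
  refine ⟨0, 16 * 64 * 16 * 16 * 1000 * C₂ * Cf * C₁ * ((Cρ : ℝ) + 1) ^ 10, by positivity, ?_⟩
  intro u v t ρ η m₁ K b _ hNu hK0 hK hb1 hb
  have hNu' := hNu
  obtain ⟨hu, hv, hut, htu, hρ, hη, hm⟩ := hNu'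
  have hu' : (2 : ℝ) ≤ u := by exact_mod_cast hu
  have hv1 : 1 ≤ v := by
    rw [hv]
    nlinarith
  have huv : u ≤ v := by
    rw [hv]
    nlinarith
  have hv' : (1 : ℝ) ≤ v := by exact_mod_cast hv1
  have h2 : (0 : ℝ) < 2 := by norm_num
  have hN : ((2 : ℝ) ^ u) ^ p = (2 : ℝ) ^ (p * u) := by
    rw [← Real.rpow_natCast, ← Real.rpow_mul h2.le, mul_comm]
  have hN1 : (1 : ℝ) ≤ (2 : ℝ) ^ (p * u) := by
    rw [← hN]
    exact Real.one_le_rpow (one_le_pow₀ (by norm_num)) (by linarith)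
  have hρ2 : (1 / η) ^ 2 = 16 * (2 : ℝ) ^ (2 * (ρ : ℝ)) := by
    have e16 : (16 : ℝ) = (2 : ℝ) ^ (4 : ℤ) := by norm_num
    have er : (2 : ℝ) ^ (2 * (ρ : ℝ)) = (2 : ℝ) ^ (2 * (ρ : ℤ)) := by
      rw [← Real.rpow_intCast]
      congr 1
      push_cast
      ring
    rw [er, hη, one_div, ← zpow_neg, e16, ← zpow_add₀ h2.ne', ← zpow_natCast, ← zpow_mul]
    congr 1
    push_cast
    ring
  have hη0 : 0 < η := by rw [hη]; positivity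
  by_cases hcase : ((2 : ℝ) ^ u) ^ p ≤ (2 : ℝ) ^ b * (1024 * (v : ℝ) ^ 2)
  · -- first choice of V
    refine ⟨(4 / η) ^ 2 * (Cf * (K + v + 1)), by positivity, Or.inl rfl, ?_⟩
    refine fin_bd p Cf C₂ C₁ Cρ u v t ρ η m₁ _ _ hp hp3 hCf hC₂ hC₁0 hNu ?_
    have h3 := nv_one u v b A p hv1 (by linarith) hA hcase
    have h4 : (4 / η) ^ 2 = 256 * (2 : ℝ) ^ (2 * (ρ : ℝ)) := by
      calc (4 / η) ^ 2 = 16 * (1 / η) ^ 2 := by ring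
        _ = _ := by rw [hρ2]; ring
    have h5 : K + v + 1 ≤ (Cf + 2) * v * (2 : ℝ) ^ (p * u) := by
      have h6 : Cf * (2 : ℝ) ^ (p * u) ≤ Cf * v * (2 : ℝ) ^ (p * u) := by
        apply mul_le_mul_of_nonneg_right _ (by positivity)
        nlinarith
      have h7 : (v : ℝ) + 1 ≤ 2 * v * (2 : ℝ) ^ (p * u) := by nlinarith
      calc K + v + 1 = K + (v + 1) := by ring
        _ ≤ Cf * v * (2 : ℝ) ^ (p * u) + 2 * v * (2 : ℝ) ^ (p * u) := add_le_add (hK.trans h6) h7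
        _ = _ := by ring
    have h8 : nv u v b A p * ((4 / η) ^ 2 * (Cf * (K + v + 1))) ≤
        ((1 + 512 * A) * v) * ((256 * (2 : ℝ) ^ (2 * (ρ : ℝ))) *
          (Cf * ((Cf + 2) * v * (2 : ℝ) ^ (p * u)))) := by
      rw [h4]
      apply mul_le_mul h3 _ (by positivity) (by positivity)
      gcongr
    refine h8.trans ?_
    have h9 : (v : ℝ) ^ 2 ≤ (v : ℝ) ^ 6 := pow_le_pow_right₀ hv' (by norm_num)
    have h10 : (1 + 512 * A) * (256 * Cf * (Cf + 2)) ≤ C₁ := by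
      rw [hC₁]
      have h11 : 0 ≤ (1 + 512 * A) * (256 * Cf * (Cf + 2)) := by positivity
      have h12 : 1 ≤ 4096 * 16 * (3 + A) := by linarith
      calc (1 + 512 * A) * (256 * Cf * (Cf + 2))
          ≤ (1 + 512 * A) * (256 * Cf * (Cf + 2)) * (4096 * 16 * (3 + A)) :=
            le_mul_of_one_le_right h11 h12
        _ = _ := by ring
    calc ((1 + 512 * A) * v) * ((256 * (2 : ℝ) ^ (2 * (ρ : ℝ))) *
          (Cf * ((Cf + 2) * v * (2 : ℝ) ^ (p * u))))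
        = ((1 + 512 * A) * (256 * Cf * (Cf + 2))) * (v : ℝ) ^ 2 * (2 : ℝ) ^ (2 * (ρ : ℝ)) *
          (2 : ℝ) ^ (p * u) := by ring
      _ ≤ C₁ * (v : ℝ) ^ 6 * (2 : ℝ) ^ (2 * (ρ : ℝ)) * (2 : ℝ) ^ (p * u) := by gcongr
  · push Not at hcase
    -- `b ≤ 3 v`
    have hb3 : b ≤ 3 * v := by
      by_contra hcon
      have hb' : b = 3 * v + 1 := by omega
      have h3 : ((2 : ℝ) ^ u) ^ p ≤ (2 : ℝ) ^ (3 * u) := by
        rw [hN, ← Real.rpow_natCast]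
        apply Real.rpow_le_rpow_of_exponent_le (by norm_num)
        push_cast
        nlinarith
      have h4 : (2 : ℝ) ^ (3 * u) ≤ (2 : ℝ) ^ b := pow_le_pow_right₀ (by norm_num) (by omega)
      have h5 : (2 : ℝ) ^ b ≤ (2 : ℝ) ^ b * (1024 * (v : ℝ) ^ 2) := by
        apply le_mul_of_one_le_right (by positivity)
        nlinarith
      linarith
    obtain ⟨T, hT, hTb⟩ := nv_two u v b A p hv1 hp hA hcase.le
    have hmu0 : 0 ≤ mu u A p ((2 : ℝ) ^ b * (1024 * (v : ℝ) ^ 2)) T := by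
      unfold mu
      positivity
    have hMs : 0 ≤ Ms v := by unfold Ms; positivity
    refine ⟨(4 * Ms v / η) ^ 2 * (16 * v * (Cf * mu u A p ((2 : ℝ) ^ b * (1024 * (v : ℝ) ^ 2)) T)),
      by positivity, Or.inr ⟨hb3, T, hT, rfl⟩, ?_⟩
    refine fin_bd p Cf C₂ C₁ Cρ u v t ρ η m₁ _ _ hp hp3 hCf hC₂ hC₁0 hNu ?_
    have h4 : (4 * Ms v / η) ^ 2 = 256 * Ms v ^ 2 * (2 : ℝ) ^ (2 * (ρ : ℝ)) := by
      calc (4 * Ms v / η) ^ 2 = 16 * Ms v ^ 2 * (1 / η) ^ 2 := by ring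
        _ = _ := by rw [hρ2]; ring
    have h5 : Ms v ≤ 64 * (v : ℝ) ^ 2 := by
      unfold Ms
      nlinarith
    have h6 : Ms v ^ 2 ≤ 4096 * (v : ℝ) ^ 4 := by
      calc Ms v ^ 2 ≤ (64 * (v : ℝ) ^ 2) ^ 2 := by gcongr
        _ = _ := by ring
    rw [h4]
    have h7 : nv u v b A p * (256 * Ms v ^ 2 * (2 : ℝ) ^ (2 * (ρ : ℝ)) *
        (16 * v * (Cf * mu u A p ((2 : ℝ) ^ b * (1024 * (v : ℝ) ^ 2)) T))) =
        (256 * 16 * Cf * v * (2 : ℝ) ^ (2 * (ρ : ℝ))) * Ms v ^ 2 *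
          (nv u v b A p * mu u A p ((2 : ℝ) ^ b * (1024 * (v : ℝ) ^ 2)) T) := by ring
    rw [h7, ← hN]
    have hnv0 : 0 ≤ nv u v b A p := by
      unfold nv
      positivity
    calc (256 * 16 * Cf * v * (2 : ℝ) ^ (2 * (ρ : ℝ))) * Ms v ^ 2 *
          (nv u v b A p * mu u A p ((2 : ℝ) ^ b * (1024 * (v : ℝ) ^ 2)) T)
        ≤ (256 * 16 * Cf * v * (2 : ℝ) ^ (2 * (ρ : ℝ))) * (4096 * (v : ℝ) ^ 4) *
          ((1 + 512 * A) * (3 + A) * v * ((2 : ℝ) ^ u) ^ p) := by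
          apply mul_le_mul _ hTb (mul_nonneg hnv0 hmu0) (by positivity)
          gcongr
      _ = (256 * 4096 * 16 * Cf * 1 * ((1 + 512 * A) * (3 + A))) * (v : ℝ) ^ 6 *
          (2 : ℝ) ^ (2 * (ρ : ℝ)) * ((2 : ℝ) ^ u) ^ p := by ring
      _ ≤ C₁ * (v : ℝ) ^ 6 * (2 : ℝ) ^ (2 * (ρ : ℝ)) * ((2 : ℝ) ^ u) ^ p := by
          rw [hC₁]
          gcongr
          linarith

end Pool.Agent.Helper60.EQ
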