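import Pool.Agent.Helper20.EQ.St1
import Pool.Agent.Helper80.LM.M_FA
import Pool.Agent.Helper4.LM.M_BBC
import Pool.Agent.Helper29.LM.M_PH

/-!
# Project EQ (MP_cb927e_an): module WRJ
-/

set_option autoImplicit false

open MeasureTheory Set Filter Topology
open scoped ENNReal RealInnerProductSpace

namespace Pool.Agent.Helper60.EQ

open Pool.Agent.Helper20.RG Pool.Agent.Helper20.EQ
open Pool.Agent.Helper68.LM (Pl BB Bd Av HL ft fm DQ)

theorem sinc_bd (b L : ℝ) (hL : 1 ≤ L) :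
    Real.sinc (Real.pi * (L * b)) ^ 2 ≤ 2 / (1 + |b|) := by
  have h1 := Real.abs_sinc_le_one (Real.pi * (L * b))
  have h2 : |Real.pi * (L * b)| * |Real.sinc (Real.pi * (L * b))| ≤ 1 := by
    by_cases h0 : Real.pi * (L * b) = 0
    · rw [h0]
      simp
    · rw [Real.sinc_of_ne_zero h0, abs_div, mul_div_cancel₀ _ (abs_ne_zero.mpr h0)]
      exact Real.abs_sin_le_one _
  have h3 : |b| ≤ |Real.pi * (L * b)| := by
    rw [abs_mul, abs_mul, abs_of_pos Real.pi_pos, abs_of_pos (by linarith : (0 : ℝ) < L)]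
    have hp : (1 : ℝ) ≤ Real.pi := by linarith [Real.pi_gt_three]
    nlinarith [abs_nonneg b, mul_nonneg (by linarith : (0 : ℝ) ≤ L) (abs_nonneg b)]
  have hs := abs_nonneg (Real.sinc (Real.pi * (L * b)))
  have h4 : |b| * |Real.sinc (Real.pi * (L * b))| ≤ 1 :=
    (mul_le_mul_of_nonneg_right h3 hs).trans h2
  have hb : 0 < 1 + |b| := by positivity
  rw [le_div_iff₀ hb, ← sq_abs]
  nlinarith

theorem num_bd (m V : ℝ) (hV : 0 < V) (mu : ℝ) (hmu : 1 ≤ mu) (b : ℝ) (hb : b = V⁻¹ * mu * |m|) :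
    min 1 (V * b) * (1 / (1 + b)) ≤ mu * (min 1 |m| * min 1 (V / |m|)) := by
  have hb0 : 0 ≤ b := by rw [hb]; positivity
  have hVb : V * b = mu * |m| := by
    rw [hb]; field_simp
  rw [hVb]
  by_cases hm : m = 0
  · simp [hm]
  have hm' : 0 < |m| := abs_pos.mpr hm
  have e1 : min 1 (mu * |m|) ≤ mu * min 1 |m| := by
    rw [mul_min_of_nonneg _ _ (by linarith : (0 : ℝ) ≤ mu), mul_one]
    exact min_le_min hmu le_rfl
  have e2 : 1 / (1 + b) ≤ min 1 (V / |m|) := by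
    apply le_min
    · rw [div_le_one (by positivity)]
      linarith
    · have hbp : 0 < b := by rw [hb]; positivity
      have : 1 / (1 + b) ≤ 1 / b := one_div_le_one_div_of_le hbp (by linarith)
      refine this.trans ?_
      rw [hb, div_le_div_iff₀ (by positivity) hm', one_mul]
      have : V * (V⁻¹ * mu * |m|) = mu * |m| := by field_simp
      rw [this]
      nlinarith
  calc min 1 (mu * |m|) * (1 / (1 + b)) ≤ (mu * min 1 |m|) * min 1 (V / |m|) := by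
        apply mul_le_mul e1 e2 (by positivity) (by positivity)
    _ = _ := by ring

theorem hWRJ (hPT : StPT) (hMXL : StMXL) (hSGE : StSGE) : StWRJ := by
  obtain ⟨C, hC, hM⟩ := hMXL
  obtain ⟨s1, s2, s3⟩ := hSGE
  obtain ⟨p1, -, p3, p4, -⟩ := hPT
  have hBBC := Pool.Agent.Helper4.LM.hBBC Pool.Agent.Helper29.LM.hPH
  obtain ⟨-, -, b3, -⟩ := hBBC
  refine ⟨8 * C, by positivity, ?_⟩
  intro s la mu V k g hs hla hmu hg
  have hEs : ‖E s‖ ≤ 2 := by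
    have h1 := (p3 (E s)).2.2.1
    have h2 := p1 1 s
    unfold E at h1 ⊢
    rw [h2.1, h2.2, abs_one] at h1
    linarith
  have he : ‖pt 0 1‖ ≤ 2 := by
    have h1 := (p3 (pt 0 1)).2.2.1
    have h2 := p1 0 1
    rw [h2.1, h2.2, abs_one, abs_zero] at h1
    linarith
  have hlk : (0 : ℝ) < (2 : ℝ) ^ k * la := by positivity
  have hB1 : Bd 1 1 (sge (E s)) := (s1 _ hEs).1
  -- the function h
  obtain ⟨h, hh⟩ : ∃ h : Pl → ℝ, h = Av (sg s) ((2 : ℝ) ^ k * la) g := ⟨_, rfl⟩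
  have hhB : BB h := by
    rw [hh, s3 s]
    exact b3 _ 1 1 _ g hB1 hlk.le hg
  obtain ⟨l, hl⟩ : ∃ l : ℝ, l = (2 : ℝ) ^ (k - (V : ℤ)) * mu := ⟨_, rfl⟩
  have hl0 : 0 < l := by rw [hl]; positivity
  have hCA : ∀ A : ℕ, A ≤ V → ∀ x, CA s la mu k A g x =
      Av (sge (pt 0 1)) ((2 : ℝ) ^ (V - A) * l) h x := by
    intro A hA x
    unfold CA
    rw [← hh]
    congr 1
    rw [hl, ← mul_assoc]
    congr 1
    rw [← zpow_natCast, ← zpow_add₀ (by norm_num : (2 : ℝ) ≠ 0)]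
    congr 1
    push_cast [hA]
    ring
  -- the pointwise estimate
  have hpt : ∀ x, MC s la mu V k g x ≤ 2 * (Finset.range (V + 1)).sup fun w =>
      ‖Av (sge (pt 0 1)) ((2 : ℝ) ^ w * l) h x - Av (sge (pt 0 1)) l h x‖ₑ := by
    intro x
    unfold MC
    apply Finset.sup_le
    intro A hA
    have hA' : A ≤ V := by
      have := Finset.mem_range.mp hA
      omega
    rw [hCA A hA' x, hCA 0 (Nat.zero_le _) x, Nat.sub_zero]
    have t1 : Av (sge (pt 0 1)) ((2 : ℝ) ^ (V - A) * l) h x -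
        Av (sge (pt 0 1)) ((2 : ℝ) ^ V * l) h x =
        (Av (sge (pt 0 1)) ((2 : ℝ) ^ (V - A) * l) h x - Av (sge (pt 0 1)) l h x) -
        (Av (sge (pt 0 1)) ((2 : ℝ) ^ V * l) h x - Av (sge (pt 0 1)) l h x) := by ring
    rw [t1]
    refine (enorm_sub_le).trans ?_
    rw [two_mul]
    refine add_le_add ?_ ?_
    · exact Finset.le_sup (f := fun w => ‖Av (sge (pt 0 1)) ((2 : ℝ) ^ w * l) h x -
        Av (sge (pt 0 1)) l h x‖ₑ) (Finset.mem_range.mpr (by omega : V - A < V + 1))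
    · exact Finset.le_sup (f := fun w => ‖Av (sge (pt 0 1)) ((2 : ℝ) ^ w * l) h x -
        Av (sge (pt 0 1)) l h x‖ₑ) (Finset.mem_range.mpr (by omega : V < V + 1))
  have step1 : ∫⁻ x, MC s la mu V k g x ^ 2 ≤ 4 * ∫⁻ x, ((Finset.range (V + 1)).sup fun w =>
      ‖Av (sge (pt 0 1)) ((2 : ℝ) ^ w * l) h x - Av (sge (pt 0 1)) l h x‖ₑ) ^ 2 := by
    rw [← lintegral_const_mul' _ _ (by norm_num)]
    apply lintegral_mono
    intro x
    have h1 := pow_le_pow_left' (hpt x) 2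
    refine h1.trans (le_of_eq ?_)
    rw [mul_pow]
    norm_num
  have step2 := hM (pt 0 1) h l V he hhB hl0
  refine step1.trans ((mul_le_mul' le_rfl step2).trans ?_)
  rw [← lintegral_const_mul' _ _ (by norm_num)]
  apply lintegral_mono
  intro ξ
  simp only
  -- the Fourier transform of h
  have hft : ft h ξ = ((Real.sinc (Real.pi * (la * ⟪E s, (2 : ℝ) ^ k • ξ⟫)) : ℝ) : ℂ) * ft g ξ := by
    rw [hh, s3 s, Pool.Agent.Helper80.LM.hFA (sge (E s)) 1 1 _ g hB1 hlk hg ξ, s2]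
    congr 4
    rw [real_inner_smul_right, real_inner_smul_right]
    ring
  have hnorm : ‖ft h ξ‖ₑ ^ 2 ≤
      ENNReal.ofReal (2 / (1 + |⟪E s, (2 : ℝ) ^ k • ξ⟫|)) * ‖ft g ξ‖ₑ ^ 2 := by
    rw [hft, enorm_mul, mul_pow]
    gcongr
    rw [← ofReal_norm, ← ENNReal.ofReal_pow (norm_nonneg _)]
    apply ENNReal.ofReal_le_ofReal
    rw [Complex.norm_real, Real.norm_eq_abs, sq_abs]
    exact sinc_bd _ la hla
  -- the first multiplier
  have hin : ⟪pt 0 1, ξ⟫ = ξ 1 := by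
    rw [p4, (p1 0 1).1, (p1 0 1).2]
    ring
  have hzeta : ((2 : ℝ) ^ k • ξ) 1 = (2 : ℝ) ^ k * ξ 1 := by simp
  have hnum := num_bd (((2 : ℝ) ^ k • ξ) 1) ((2 : ℝ) ^ V) (by positivity) mu hmu (l * |ξ 1|) (by
    rw [hl, hzeta, abs_mul, abs_of_pos (by positivity : (0 : ℝ) < (2 : ℝ) ^ k),
      zpow_sub₀ (by norm_num : (2 : ℝ) ≠ 0), zpow_natCast]
    field_simp)
  rw [hin]
  have hT : 8 * C * mu * Tht s V ((2 : ℝ) ^ k • ξ) =
      4 * (C * (mu * (min 1 |((2 : ℝ) ^ k • ξ) 1| * min 1 ((2 : ℝ) ^ V / |((2 : ℝ) ^ k • ξ) 1|)))) *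
        (2 / (1 + |⟪E s, (2 : ℝ) ^ k • ξ⟫|)) := by
    unfold Tht
    ring
  have h0 : 0 ≤ min 1 |((2 : ℝ) ^ k • ξ) 1| * min 1 ((2 : ℝ) ^ V / |((2 : ℝ) ^ k • ξ) 1|) := by
    positivity
  have e4 : ENNReal.ofReal 4 = 4 := by norm_num
  have hT2 : ENNReal.ofReal (4 * (C * (mu * (min 1 |((2 : ℝ) ^ k • ξ) 1| *
      min 1 ((2 : ℝ) ^ V / |((2 : ℝ) ^ k • ξ) 1|)))) * (2 / (1 + |⟪E s, (2 : ℝ) ^ k • ξ⟫|))) =
      4 * (ENNReal.ofReal (C * (mu * (min 1 |((2 : ℝ) ^ k • ξ) 1| *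
        min 1 ((2 : ℝ) ^ V / |((2 : ℝ) ^ k • ξ) 1|)))) *
          ENNReal.ofReal (2 / (1 + |⟪E s, (2 : ℝ) ^ k • ξ⟫|))) := by
    rw [ENNReal.ofReal_mul (by positivity), ENNReal.ofReal_mul (by norm_num : (0 : ℝ) ≤ 4), e4,
      mul_assoc]
  rw [hT, hT2, mul_assoc, mul_assoc]
  refine mul_le_mul' le_rfl ?_
  refine mul_le_mul' ?_ hnorm
  apply ENNReal.ofReal_le_ofReal
  exact mul_le_mul_of_nonneg_left hnum hC.le

end Pool.Agent.Helper60.EQ
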